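import Pool.Agent.R693.SU.Fin
import Pool.Agent.R693.SU.AUTown
import Pool.Agent.R693.SU.PerfC
import Pool.Agent.R693.SU.QBown
import Pool.Agent.R693.SU.LegC
import Pool.Agent.R693.SU.LOCC
import Pool.Agent.R693.SU.TRc
import Pool.Agent.R693.SU.SPLown
import Pool.Agent.R693.SU.HOMown

/-!
# Groups with exactly one irreducible representation in each dimension: the two-dimensional
representation is rational

Let `G` be a group with property (U).  Then `G` is perfect, and there is a homomorphism
`φ : G → SL(2, ℚ)` whose image is irreducible over `ℂ` and such that every irreducible complex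
representation of dimension two is conjugate to `φ`; so for `N = ker φ`, the kernel of the
two-dimensional irreducible representation, `G / N` is isomorphic to a subgroup of `SL(2, ℚ)`.

Idea (statements of the pieces in `Pool/Agent/R693/SU/Stm.lean`, proofs in words in
`Pool/Agent/R693/SU/NOTES.md`, assembly in `Pool/Agent/R693/SU/Fin.lean`).
* Uniqueness in dimension one: every homomorphism `G → ℂˣ` is trivial; `ℂˣ` is divisible, so `G` is
  perfect, and all representations have determinant one.
* Uniqueness in dimension two: the representation `ρ` is conjugate to all its twists by field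
  automorphisms of `ℂ`, whose common fixed field is `ℚ`; so `ρ` has rational traces.  The rational span of
  `ρ(G)` is then a quaternion algebra `B` over `ℚ`.
* If `B` is a division algebra, then by Legendre's theorem (in the form with the real place left out) it
  is a division algebra over `ℚ_p` for some prime `p`.  The norm one group of a division quaternion
  algebra over `ℚ_p` is prosolvable: a perfect group has only the trivial homomorphism to it.
  This contradicts the irreducibility of `ρ`.  So `B` is the algebra of `2 × 2` matrices over `ℚ`, and `ρ` is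
  conjugate to a rational representation.
-/

set_option autoImplicit false

namespace Pool.Agent.Results.MP_c356f3_al.RationalForm

open Matrix Pool.Agent.R693.SU

universe u

/-- A complex representation `ρ` of `G` of dimension `n` is irreducible if `n > 0` and `ℂ^n` has no
`ρ(G)`-invariant subspace other than `0` and `ℂ^n`. -/
def IsIrreducible {G : Type u} [Group G] {n : ℕ} (ρ : G →* GL (Fin n) ℂ) : Prop :=
  0 < n ∧ ∀ W : Submodule ℂ (Fin n → ℂ),
    (∀ g, ∀ w ∈ W, (ρ g : Matrix (Fin n) (Fin n) ℂ) *ᵥ w ∈ W) → W = ⊥ ∨ W = ⊤

/-- Two representations on `ℂ^n` are isomorphic if they are conjugate by an element of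
`GL(n, ℂ)`. -/
def Isomorphic {G : Type u} [Group G] {n : ℕ} (ρ ρ' : G →* GL (Fin n) ℂ) : Prop :=
  ∃ A : GL (Fin n) ℂ, ∀ g, ρ' g = A * ρ g * A⁻¹

/-- Property (U): for every `n ≥ 1` there is exactly one irreducible complex representation of
dimension `n` up to isomorphism. -/
def PropertyU (G : Type u) [Group G] : Prop := ∀ n : ℕ, 1 ≤ n →
  ∃ ρ : G →* GL (Fin n) ℂ, IsIrreducible ρ ∧
    ∀ ρ' : G →* GL (Fin n) ℂ, IsIrreducible ρ' → Isomorphic ρ ρ'

/-- The inclusion of `SL(2, ℚ)` in `GL(2, ℂ)`. -/
noncomputable def incl : SpecialLinearGroup (Fin 2) ℚ →* GL (Fin 2) ℂ :=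
  SpecialLinearGroup.toGL.comp (SpecialLinearGroup.map (algebraMap ℚ ℂ))

/-- Let `G` be a group with property (U).  Then `G` is perfect, and there is a homomorphism
`φ : G → SL(2, ℚ)` such that `φ`, regarded as a complex representation, is irreducible, every
two-dimensional irreducible complex representation of `G` is isomorphic to it, and has the same
kernel. -/
theorem result (G : Type u) [Group G] (hG : PropertyU G) :
    commutator G = ⊤ ∧ ∃ φ : G →* SpecialLinearGroup (Fin 2) ℚ,
      IsIrreducible (incl.comp φ) ∧
      ∀ ρ : G →* GL (Fin 2) ℂ, IsIrreducible ρ → Isomorphic (incl.comp φ) ρ ∧ φ.ker = ρ.ker := by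
  obtain ⟨hp, φ, hφ, hk⟩ := final AUTown.piece PerfC.t_PERF QBown.piece LegC.leg (LOCC.loc_main TRc.tr)
    SPLown.piece HOMown.piece G hG
  refine ⟨hp, φ, hφ, fun ρ hρ => ⟨?_, hk ρ hρ⟩⟩
  obtain ⟨ρ0, _, hu⟩ := hG 2 (by norm_num)
  obtain ⟨A, hA⟩ := hu ρ hρ
  obtain ⟨B, hB⟩ := hu _ hφ
  refine ⟨A * B⁻¹, fun g => ?_⟩
  have h2 : (incl.comp φ) g = B * ρ0 g * B⁻¹ := hB g
  rw [h2, hA g]
  group

end Pool.Agent.Results.MP_c356f3_al.RationalForm
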